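import Pool.Agent.ANO.Asm.Setup

/-!
# ANO: the main theorem from the final statements of the modules

`MP_5e77d9_an`.
-/

set_option autoImplicit false

open Set Filter Topology
open scoped UpperHalfPlane MatrixGroups

namespace Pool.Agent.ANO

variable {r k : ℕ}

theorem model_iterate_fix {S : Fin r → PASurface} {A : Matrix (Fin k) (Fin k) ℤ}
    {g : X r k → X r k} {m : ℕ} {F : X r k ≃ₜ X r k} {M : ℕ}
    (hh : Homotopic S (model S A)^[m] (F ^ M : X r k ≃ₜ X r k)) (hg : IsDeck S k g) (j : ℕ) :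
    ∃ gj, IsDeck S k gj ∧ (∀ x, (fun x => g ((model S A)^[m] x))^[j] x = gj ((model S A)^[m * j] x)) ∧
      ∀ x, (fun x => g ((F ^ M) x))^[j] x = gj ((F ^ (M * j)) x) := by
  induction j with
  | zero => exact ⟨id, IsDeck.id S, fun x => rfl, fun x => rfl⟩
  | succ j ih =>
    obtain ⟨gj, hgj, h1, h2⟩ := ih
    obtain ⟨g', hg', h3, h4⟩ := hh gj hgj
    refine ⟨g ∘ g', hg.comp hg', fun x => ?_, fun x => ?_⟩
    · rw [Function.iterate_succ', Function.comp_apply, h1, Function.comp_apply, mul_add, mul_one,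
        add_comm, Function.iterate_add, Function.comp_apply]
      congr 1
      exact congrFun h3 _
    · rw [Function.iterate_succ', Function.comp_apply, h2, Function.comp_apply, mul_add, mul_one,
        add_comm, pow_add]
      congr 1
      exact congrFun h4 _

theorem coord_iterate {A : Matrix (Fin k) (Fin k) ℤ} {S : Fin r → PASurface}
    {g : X r k → X r k} {m : ℕ} {i0 : Fin r} {H : ℍ → ℍ}
    (coord : ∀ p, (g ((model S A)^[m] p)).1 i0 = H (p.1 i0)) (j : ℕ) (p : X r k) :
    ((fun x => g ((model S A)^[m] x))^[j] p).1 i0 = H^[j] (p.1 i0) := by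
  induction j with
  | zero => rfl
  | succ j ih =>
    rw [Function.iterate_succ', Function.comp_apply, coord, ih, Function.iterate_succ',
      Function.comp_apply]

/-- The local data of the core at a cone point. -/
theorem exists_local (S : Fin r → PASurface) (A : Matrix (Fin k) (Fin k) ℤ)
    (hA : IsHyperbolicMatrix A) (Gm : Geom S A) (F : X r k ≃ₜ X r k) (hF : IsAnosovLift S F)
    (n N0 : ℕ) (hn : 0 < n) (hN0 : 0 < N0)
    (hh : Homotopic S (model S A) (F ^ n : X r k ≃ₜ X r k))
    (hexp : ExpShadow (F ^ (n * N0) : X r k ≃ₜ X r k)) (hidx : IndexStatement)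
    (hreg : RegularStatement) (hcount : CountStatement) (D : ConeData Gm N0) :
    Nonempty (Core.Local (mkSetup S A hA Gm F hF n N0 hn hN0 hh hexp hidx)) := by
  obtain ⟨m1, hm1⟩ := D.dvd
  have hm1pos : 0 < m1 := by
    rcases Nat.eq_zero_or_pos m1 with h | h
    · have := D.m_pos
      rw [hm1, h] at this
      simp at this
    · exact h
  obtain ⟨g, hg, hgD⟩ := D.deck.exists_mem
  -- the two lifts
  have hT0 : ∀ x, g (((modelHomeo S A hA.1 ^ N0) ^ m1) x) = D.g ((model S A)^[D.m] x) := by
    intro x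
    rw [← pow_mul, coe_modelHomeo_pow, hgD, hm1]
  have hT : ∀ x, g (((F ^ (n * N0)) ^ m1) x) = D.g ((F ^ (n * D.m)) x) := by
    intro x
    rw [← pow_mul, mul_assoc, hgD, hm1]
  have hhm : Homotopic S (model S A)^[D.m] (F ^ (n * D.m) : X r k ≃ₜ X r k) := hh.pow D.m
  refine ⟨{
    n := 2 * D.κ
    three_le := by have := D.two_le; omega
    w := D.w
    g := g
    mem := hg
    m := m1
    m_pos := hm1pos
    fixed := ?_
    XS := D.XS
    YS := D.YS
    adj := D.adj
    closeX := D.closeX
    closeY := D.closeY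
    invX := ?_
    invY := ?_
    count := ?_
    dense := ?_ }⟩
  · exact (hT0 D.w).trans D.fixed
  · filter_upwards [D.invX] with z hz e
    rw [hz e]
    exact iff_of_eq (congrArg (· ∈ D.XS e) (hT0 z).symm)
  · filter_upwards [D.invY] with z hz e
    rw [hz e]
    exact iff_of_eq (congrArg (· ∈ D.YS e) (hT0 z).symm)
  · intro j hj
    have h1 : (fun x => g (((F ^ (n * N0)) ^ m1) x)) = fun x => D.g ((F ^ (n * D.m)) x) :=
      funext hT
    change {q : X r k | (fun x => g (((F ^ (n * N0)) ^ m1) x))^[j] q = q}.encard ≤ _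
    rw [h1]
    obtain ⟨gj, hgj, h2, h3⟩ := model_iterate_fix hhm D.deck j
    have h4 : {q : X r k | (fun x => D.g ((F ^ (n * D.m)) x))^[j] q = q} =
        {q | gj ((F ^ (n * D.m * j)) q) = q} := by
      ext q
      simp only [Set.mem_setOf_eq]
      rw [h3]
    rw [h4]
    have hhj : Homotopic S (model S A)^[D.m * j] (F ^ (n * D.m * j) : X r k ≃ₜ X r k) := by
      rw [mul_assoc]
      exact hh.pow (D.m * j)
    have hfix : (fun x => D.g ((model S A)^[D.m] x))^[j] D.w = D.w :=
      Function.iterate_fixed D.fixed j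
    refine hcount r k S A Gm hA F hF (n * D.m * j) (D.m * j)
      (Nat.mul_pos (Nat.mul_pos hn D.m_pos) hj) (Nat.mul_pos D.m_pos hj) hhj gj hgj D.w ?_
      D.κ D.two_le D.i0 D.H^[j] ?_ D.regular (D.cone j hj)
    · rw [← h2]; exact hfix
    · intro p
      rw [← h2]
      exact coord_iterate D.coord j p
  · intro e e' hee V hV
    obtain ⟨z, hzV, hzX, hzY, g', hg', m', hm', hdvd, hfix, hrg⟩ := D.dense e e' hee V hV
    obtain ⟨m2, hm2⟩ := hdvd
    have hm2pos : 0 < m2 := by
      rcases Nat.eq_zero_or_pos m2 with h | h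
      · rw [hm2, h] at hm'
        simp at hm'
      · exact h
    obtain ⟨q, hq⟩ := hreg r k S A Gm hA F hF (n * m') m' (Nat.mul_pos hn hm') hm' (hh.pow m')
      g' hg' z hfix hrg
    obtain ⟨g2, hg2, rfl⟩ := hg'.exists_mem
    refine ⟨z, hzV, hzX, hzY, g2, hg2, m2, hm2pos, ?_, q, ?_⟩
    · change g2 (((modelHomeo S A hA.1 ^ N0) ^ m2) z) = z
      rw [← pow_mul, coe_modelHomeo_pow, ← hm2]
      exact hfix
    · change g2 (((F ^ (n * N0)) ^ m2) q) = q
      rw [← pow_mul, mul_assoc, ← hm2]
      exact hq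

/-- The main theorem from the final statements of the modules. -/
theorem main_of_statements (hcore : Core.CoreStatement)
    (geom : ∀ {r k : ℕ} (S : Fin r → PASurface) (A : Matrix (Fin k) (Fin k) ℤ),
      IsHyperbolicMatrix A → Geom S A) (hcone : ConeStatement geom) (hidx : IndexStatement)
    (hreg : RegularStatement) (hcount : CountStatement) (hdyn : DynStatement) : MainStatement := by
  intro r k hr S A hA F hF n hn hh
  obtain ⟨N0, hN0, hexp⟩ := hdyn r k S F hF
  have h1 : N0 ≤ n * N0 := Nat.le_mul_of_pos_left N0 hn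
  obtain ⟨D⟩ := hcone r k hr S A hA N0 hN0
  obtain ⟨L⟩ := exists_local S A hA (geom S A hA) F hF n N0 hn hN0 hh (hexp _ h1) hidx hreg hcount D
  exact hcore _ _ L

end Pool.Agent.ANO
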