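import Pool.Agent.ANO.Defs
import Pool.Agent.ANO.Core.Setup

/-!
# ANO: interface between the modules

The final theorems of the modules, as propositions.  `MP_5e77d9_an`, blueprint
`/team-store/ANO_Proof.md`.

* module A (`Geo`, `Cone`): `GeomStatement`, `ConeStatement`;
* module B (`Idx`): `IndexStatement`, `RegularStatement`, `CountStatement`;
* module C (`Dyn`): `DynStatement`;
* module D (`Core`): `Core.CoreStatement`.

`Assemble.lean` deduces `MainStatement` from these seven propositions.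
-/

set_option autoImplicit false

open Set Filter Topology
open scoped UpperHalfPlane

namespace Pool.Agent.ANO

variable {r k : ℕ}

/-! ### Module A -/

/-- The unstable and the stable pseudo-distance of the model on the universal cover. -/
structure Geom (S : Fin r → PASurface) (A : Matrix (Fin k) (Fin k) ℤ) where
  DU : X r k → X r k → ℝ
  DS : X r k → X r k → ℝ
  DU_nonneg : ∀ x y, 0 ≤ DU x y
  DS_nonneg : ∀ x y, 0 ≤ DS x y
  DU_symm : ∀ x y, DU x y = DU y x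
  DS_symm : ∀ x y, DS x y = DS y x
  DU_triangle : ∀ x y z, DU x z ≤ DU x y + DU y z
  DS_triangle : ∀ x y z, DS x z ≤ DS x y + DS y z
  DU_inv : ∀ g, IsDeck S k g → ∀ x y, DU (g x) (g y) = DU x y
  DS_inv : ∀ g, IsDeck S k g → ∀ x y, DS (g x) (g y) = DS x y
  lam : ℝ
  one_lt_lam : 1 < lam
  DU_expand : ∀ x y, lam * DU x y ≤ DU (model S A x) (model S A y)
  DS_expand : ∀ x y, lam * DS (model S A x) (model S A y) ≤ DS x y
  upper : ∀ R : ℝ, ∃ C : ℝ, ∀ x y, dist x y ≤ R → DU x y ≤ C ∧ DS x y ≤ C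
  proper : ∀ R : ℝ, ∃ C : ℝ, ∀ x y, DU x y ≤ R → DS x y ≤ R → dist x y ≤ C
  eq_of_zero : ∀ x y, DU x y = 0 → DS x y = 0 → x = y

/-- `H : ℍ → ℍ` fixes the cone point `s` of the flat surface and all quadrants at `s`: in a chart
`ψ` at `s` with `D = D(s) + ψ^κ` it has the form `ψ ↦ ω ψ` with `|arg ω| < π/(2κ)` and
`(ω ψ)^κ = Λ Re ψ^κ + i Λ⁻¹ Im ψ^κ`. -/
def ConeFixed (S : FlatSurface) (s : ℍ) (κ : ℕ) (H : ℍ → ℍ) : Prop :=
  H s = s ∧ Continuous H ∧ ∃ (ψ : ℂ → ℂ) (L : ℝ), 1 < L ∧ AnalyticAt ℂ ψ (s : ℂ) ∧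
    ψ (s : ℂ) = 0 ∧ deriv ψ (s : ℂ) ≠ 0 ∧ (∀ᶠ z in 𝓝 (s : ℂ), S.D z = S.D s + ψ z ^ κ) ∧
    ∀ᶠ z in 𝓝 s, ∃ ω : ℂ, |ω.arg| < Real.pi / (2 * κ) ∧ ψ (H z : ℂ) = ω * ψ (z : ℂ) ∧
      (ω * ψ (z : ℂ)) ^ κ = stretch L (ψ (z : ℂ) ^ κ)

/-- The local geometry of the model at a fixed point `w` of a lift `g F₀^m` of a power of the model
(`N ∣ m` for a given `N`): the `i0`-coordinate of `w` is a cone point with `2κ` prongs, `κ ≥ 2`,
the other coordinates are regular. -/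
structure ConeData {S : Fin r → PASurface} {A : Matrix (Fin k) (Fin k) ℤ} (G : Geom S A)
    (N : ℕ) where
  κ : ℕ
  two_le : 2 ≤ κ
  w : X r k
  g : X r k → X r k
  deck : IsDeck S k g
  m : ℕ
  m_pos : 0 < m
  dvd : N ∣ m
  fixed : g ((model S A)^[m] w) = w
  i0 : Fin r
  regular : ∀ i, i ≠ i0 → deriv (S i).D (w.1 i) ≠ 0
  H : ℍ → ℍ
  coord : ∀ p, (g ((model S A)^[m] p)).1 i0 = H (p.1 i0)
  cone : ∀ j : ℕ, 0 < j → ConeFixed (S i0).toFlatSurface (w.1 i0) κ H^[j]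
  XS : ZMod (2 * κ) → Set (X r k)
  YS : ZMod (2 * κ) → Set (X r k)
  adj : ∀ᶠ z in 𝓝 w, ∀ e e', z ∈ XS e → z ∈ YS e' → Core.Adj e e'
  closeX : ∃ V ∈ 𝓝 w, ∀ e, ∀ z' ∈ V, z' ∈ XS e → ∃ ε > 0, ∀ z ∈ V, G.DU z z' < ε → z ∈ XS e
  closeY : ∃ V ∈ 𝓝 w, ∀ e, ∀ z' ∈ V, z' ∈ YS e → ∃ ε > 0, ∀ z ∈ V, G.DS z z' < ε → z ∈ YS e
  invX : ∀ᶠ z in 𝓝 w, ∀ e, z ∈ XS e ↔ g ((model S A)^[m] z) ∈ XS e
  invY : ∀ᶠ z in 𝓝 w, ∀ e, z ∈ YS e ↔ g ((model S A)^[m] z) ∈ YS e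
  dense : ∀ e e', Core.Adj e e' → ∀ V ∈ 𝓝 w, ∃ z ∈ V, z ∈ XS e ∧ z ∈ YS e' ∧
    ∃ g', IsDeck S k g' ∧ ∃ m' : ℕ, 0 < m' ∧ N ∣ m' ∧ g' ((model S A)^[m'] z) = z ∧
      ∀ i, deriv (S i).D (z.1 i) ≠ 0

/-- Module A, (A1)-(A7) and the linear algebra of the torus factor. -/
def GeomStatement : Prop :=
  ∀ (r k : ℕ) (S : Fin r → PASurface) (A : Matrix (Fin k) (Fin k) ℤ),
    IsHyperbolicMatrix A → Nonempty (Geom S A)

/-! `ConeStatement` is stated below for the particular `Geom` constructed in module A: module A has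
to export one definition `geom S A hA : Geom S A` and prove `ConeStatement geom`. -/

/-- Module A, (A8)-(A10). -/
def ConeStatement
    (geom : ∀ {r k : ℕ} (S : Fin r → PASurface) (A : Matrix (Fin k) (Fin k) ℤ),
      IsHyperbolicMatrix A → Geom S A) : Prop :=
  ∀ (r k : ℕ), 0 < r → ∀ (S : Fin r → PASurface) (A : Matrix (Fin k) (Fin k) ℤ)
    (hA : IsHyperbolicMatrix A) (N : ℕ), 0 < N → Nonempty (ConeData (geom S A hA) N)

/-! ### Module B -/

/-- (S5): if the lift `g F^M` of a power of the Anosov diffeomorphism has a fixed point, then the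
corresponding lift of the model has one. -/
def IndexStatement : Prop :=
  ∀ (r k : ℕ) (S : Fin r → PASurface) (A : Matrix (Fin k) (Fin k) ℤ), Geom S A →
    IsHyperbolicMatrix A → ∀ F : X r k ≃ₜ X r k, IsAnosovLift S F → ∀ (M M0 : ℕ), 0 < M → 0 < M0 →
      Homotopic S (model S A)^[M0] (F ^ M : X r k ≃ₜ X r k) → ∀ g, IsDeck S k g →
        ∀ q, g ((F ^ M) q) = q → ∃ z, g ((model S A)^[M0] z) = z

/-- (S6)(i): if the lift `g F₀^M0` of the model has a fixed point with regular coordinates then the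
corresponding lift of the Anosov diffeomorphism has a fixed point. -/
def RegularStatement : Prop :=
  ∀ (r k : ℕ) (S : Fin r → PASurface) (A : Matrix (Fin k) (Fin k) ℤ), Geom S A →
    IsHyperbolicMatrix A → ∀ F : X r k ≃ₜ X r k, IsAnosovLift S F → ∀ (M M0 : ℕ), 0 < M → 0 < M0 →
      Homotopic S (model S A)^[M0] (F ^ M : X r k ≃ₜ X r k) → ∀ g, IsDeck S k g →
        ∀ w, g ((model S A)^[M0] w) = w → (∀ i, deriv (S i).D (w.1 i) ≠ 0) →
          ∃ q, g ((F ^ M) q) = q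

/-- (S6)(ii): if the lift `g F₀^M0` of the model fixes a point over a cone point with `2κ` prongs,
and all quadrants there, then the corresponding lift of the Anosov diffeomorphism has at most
`2κ - 1` fixed points. -/
def CountStatement : Prop :=
  ∀ (r k : ℕ) (S : Fin r → PASurface) (A : Matrix (Fin k) (Fin k) ℤ), Geom S A →
    IsHyperbolicMatrix A → ∀ F : X r k ≃ₜ X r k, IsAnosovLift S F → ∀ (M M0 : ℕ), 0 < M → 0 < M0 →
      Homotopic S (model S A)^[M0] (F ^ M : X r k ≃ₜ X r k) → ∀ g, IsDeck S k g →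
        ∀ w, g ((model S A)^[M0] w) = w → ∀ (κ : ℕ), 2 ≤ κ → ∀ (i0 : Fin r) (H : ℍ → ℍ),
          (∀ p, (g ((model S A)^[M0] p)).1 i0 = H (p.1 i0)) →
          (∀ i, i ≠ i0 → deriv (S i).D (w.1 i) ≠ 0) →
          ConeFixed (S i0).toFlatSurface (w.1 i0) κ H →
          {q | g ((F ^ M) q) = q}.encard ≤ (2 * κ - 1 : ℕ)

/-! ### Module C -/

/-- Expansivity and shadowing for a homeomorphism of a metric space. -/
def ExpShadow {Y : Type} [MetricSpace Y] (G : Y ≃ₜ Y) : Prop :=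
  (∃ e0 : ℝ, 0 < e0 ∧ ∀ x y, (∀ j : ℤ, dist ((G ^ j) x) ((G ^ j) y) ≤ e0) → x = y) ∧
  ∀ ε > 0, ∃ δ > 0, ∀ x : ℤ → Y, (∀ j, dist (G (x j)) (x (j + 1)) ≤ δ) →
    ∃ y, ∀ j : ℤ, dist ((G ^ j) y) (x j) ≤ ε

/-- (C1), (C2) for all large powers. -/
def DynStatement : Prop :=
  ∀ (r k : ℕ) (S : Fin r → PASurface) (F : X r k ≃ₜ X r k), IsAnosovLift S F →
    ∃ N0 : ℕ, 0 < N0 ∧ ∀ N, N0 ≤ N → ExpShadow (F ^ N : X r k ≃ₜ X r k)

end Pool.Agent.ANO

namespace Pool.Agent.ANO.Core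

/-- Section 5: the contradiction. -/
def CoreStatement : Prop :=
  ∀ (X : Type) [MetricSpace X] [ProperSpace X] (S : Setup X), Local S → False

end Pool.Agent.ANO.Core
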