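import Mathlib

/-!
# Anosov diffeomorphisms on products of closed surfaces and a torus: definitions

`X r k = ℍ^r × ℝ^k` is the universal cover of `M = S₁ × ⋯ × S_r × T^k`, where
`S_i = Γ_i \ ℍ` are closed hyperbolic surfaces and `T^k = ℝ^k / ℤ^k`.
-/

set_option autoImplicit false

open scoped UpperHalfPlane MatrixGroups
open Set

namespace Pool.Agent.ANO

/-- The real-linear map `x + i y ↦ l x + i l⁻¹ y` of the plane. -/
noncomputable def stretch (l : ℝ) (z : ℂ) : ℂ := ⟨l * z.re, l⁻¹ * z.im⟩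

/-- A closed hyperbolic surface `S = Γ \ ℍ` together with a flat structure.

* `Γ` is a subgroup of `SL(2, ℝ)`; it acts on the upper half plane `ℍ` freely (up to elements
  acting trivially), properly discontinuously and cocompactly;
* `D` is a nonconstant holomorphic function on the upper half plane with
  `D (γ z) = ± D z + c_γ` for `γ ∈ Γ`.  So `(D')² dz²` is (the lift of) a nonzero holomorphic
  quadratic differential on `S` all of whose zeros have even order, and every such quadratic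
  differential (for instance the square of an abelian differential) is of this form. -/
structure FlatSurface where
  Γ : Subgroup SL(2, ℝ)
  free : ∀ γ ∈ Γ, ∀ z : ℍ, γ • z = z → ∀ w : ℍ, γ • w = w
  proper : ∀ K : Set ℍ, IsCompact K → {γ : SL(2, ℝ) | γ ∈ Γ ∧ ∃ z ∈ K, γ • z ∈ K}.Finite
  cocompact : ∃ K : Set ℍ, IsCompact K ∧ ∀ z : ℍ, ∃ γ ∈ Γ, γ • z ∈ K
  D : ℂ → ℂ
  holo : DifferentiableOn ℂ D {z : ℂ | 0 < z.im}
  nonconst : ∃ z w : ℍ, D z ≠ D w
  equivar : ∀ γ ∈ Γ, ∃ ε c : ℂ, (ε = 1 ∨ ε = -1) ∧ ∀ z : ℍ, D ((γ • z : ℍ) : ℂ) = ε * D z + c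

/-- A pseudo-Anosov homeomorphism of a closed surface `S = Γ \ ℍ`, given by a lift `f` to the
universal cover `ℍ`: `f` is a homeomorphism normalising the deck group and
`D (f z) = ± (l x + i l⁻¹ y) + c`, where `D z = x + i y` and `l > 1`.  So `f` stretches the
horizontal foliation of the flat structure by `l` and contracts the vertical one by `l⁻¹`. -/
structure PASurface extends FlatSurface where
  f : ℍ ≃ₜ ℍ
  normalizes : ∀ γ ∈ Γ, ∃ γ' ∈ Γ, ∀ z : ℍ, f (γ • z) = γ' • f z
  normalizes' : ∀ γ' ∈ Γ, ∃ γ ∈ Γ, ∀ z : ℍ, f (γ • z) = γ' • f z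
  l : ℝ
  one_lt : 1 < l
  affine : ∃ ε c : ℂ, (ε = 1 ∨ ε = -1) ∧ ∀ z : ℍ, D (f z) = ε * stretch l (D z) + c

variable {r k : ℕ}

/-- The universal cover `ℍ^r × ℝ^k` of `S₁ × ⋯ × S_r × T^k`. -/
abbrev X (r k : ℕ) : Type := (Fin r → ℍ) × (Fin k → ℝ)

/-- The vector space `ℂ^r × ℝ^k`; `X r k` is an open subset of it. -/
abbrev E (r k : ℕ) : Type := (Fin r → ℂ) × (Fin k → ℝ)

/-- The inclusion `ℍ^r × ℝ^k → ℂ^r × ℝ^k`. -/
noncomputable def toE (p : X r k) : E r k := (fun i => (p.1 i : ℂ), p.2)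

/-- The image of `ℍ^r × ℝ^k` in `ℂ^r × ℝ^k`. -/
def dom (r k : ℕ) : Set (E r k) := {x | ∀ i, 0 < (x.1 i).im}

/-- The inverse of `toE` (arbitrary outside `dom r k`). -/
noncomputable def ofE (x : E r k) : X r k := (fun i => UpperHalfPlane.ofComplex (x.1 i), x.2)

/-- A map of `X r k` expressed in the coordinates of `ℂ^r × ℝ^k`. -/
noncomputable def loc (G : X r k → X r k) (x : E r k) : E r k := toE (G (ofE x))

/-- The derivative of a map of `X r k` at `p` (in the coordinates of `ℂ^r × ℝ^k`). -/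
noncomputable def tmap (G : X r k → X r k) (p : X r k) : E r k →L[ℝ] E r k :=
  fderiv ℝ (loc G) (toE p)

/-- The norm of the tangent vector `v` at `p`: the maximum of the hyperbolic norms
`|v_i| / Im z_i` of the components in the factors `ℍ` and of the norm of the component in `ℝ^k`.
It is invariant under deck transformations and uniformly equivalent to the norm of the product
Riemannian metric. -/
noncomputable def tnorm (p : X r k) (v : E r k) : ℝ :=
  ‖((fun i => ((p.1 i).im : ℂ)⁻¹ * v.1 i, v.2) : E r k)‖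

/-- Deck transformations of `X r k → S₁ × ⋯ × S_r × T^k`. -/
def IsDeck (S : Fin r → PASurface) (k : ℕ) (g : X r k → X r k) : Prop :=
  ∃ (γ : Fin r → SL(2, ℝ)) (v : Fin k → ℤ), (∀ i, γ i ∈ (S i).Γ) ∧
    ∀ p, g p = (fun i => γ i • p.1 i, fun j => p.2 j + v j)

/-- The lift `f₁ × ⋯ × f_r × A` to the universal cover of the product of pseudo-Anosov
homeomorphisms `f_i` of `S_i` and of the linear map `A` of the torus. -/
noncomputable def model (S : Fin r → PASurface) (A : Matrix (Fin k) (Fin k) ℤ) (p : X r k) :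
    X r k :=
  (fun i => (S i).f (p.1 i), (A.map (Int.cast : ℤ → ℝ)).mulVec p.2)

/-- `A` induces a hyperbolic automorphism of the torus `T^k`: it is invertible over `ℤ` and has no
complex eigenvalue of modulus `1`. -/
def IsHyperbolicMatrix (A : Matrix (Fin k) (Fin k) ℤ) : Prop :=
  IsUnit A.det ∧ ∀ z : ℂ, (A.map (Int.cast : ℤ → ℂ)).charpoly.IsRoot z → ‖z‖ ≠ 1

/-- `G : X → X` descends to a continuous map of `M` which is homotopic to the map induced by
`G₀`: since `X` is contractible this means that for every deck transformation `g` the two maps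
satisfy `G₀ g = g' G₀`, `G g = g' G` with the same deck transformation `g'`. -/
def Homotopic (S : Fin r → PASurface) (G₀ G : X r k → X r k) : Prop :=
  ∀ g, IsDeck S k g → ∃ g', IsDeck S k g' ∧ G₀ ∘ g = g' ∘ G₀ ∧ G ∘ g = g' ∘ G

/-- `F` is a lift to the universal cover `X r k` of a `C¹` Anosov diffeomorphism of the closed
manifold `M = S₁ × ⋯ × S_r × T^k`:

* `F` is a `C¹` diffeomorphism which normalises the group of deck transformations;
* there is a continuous splitting of the tangent bundle of `M`, given by the projections `P p` of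
  the tangent space at `p` onto `E^u` (with kernel `E^s`), invariant under deck transformations
  and under `F`, and constants `C > 0`, `0 < μ < 1` such that `‖DFⁿ v‖ ≤ C μⁿ ‖v‖` for
  `v ∈ E^s` and `‖DF⁻ⁿ v‖ ≤ C μⁿ ‖v‖` for `v ∈ E^u`, `n ≥ 0`. -/
def IsAnosovLift (S : Fin r → PASurface) (F : X r k ≃ₜ X r k) : Prop :=
  ContDiffOn ℝ 1 (loc F) (dom r k) ∧ ContDiffOn ℝ 1 (loc F.symm) (dom r k) ∧
  (∀ g, IsDeck S k g → ∃ g', IsDeck S k g' ∧ F ∘ g = g' ∘ F) ∧
  (∀ g', IsDeck S k g' → ∃ g, IsDeck S k g ∧ F ∘ g = g' ∘ F) ∧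
  ∃ P : X r k → (E r k →L[ℝ] E r k), Continuous P ∧ (∀ p, P p ∘L P p = P p) ∧
    (∀ g, IsDeck S k g → ∀ p, P (g p) ∘L tmap g p = tmap g p ∘L P p) ∧
    (∀ p, P (F p) ∘L tmap F p = tmap F p ∘L P p) ∧
    ∃ C μ : ℝ, 0 < C ∧ 0 < μ ∧ μ < 1 ∧ ∀ (n : ℕ) (p : X r k) (v : E r k),
      (P p v = 0 → tnorm ((F ^ n) p) (tmap (F ^ n : X r k ≃ₜ X r k) p v) ≤ C * μ ^ n * tnorm p v) ∧
      (P p v = v → tnorm ((F ^ n).symm p) (tmap (F ^ n : X r k ≃ₜ X r k).symm p v) ≤
        C * μ ^ n * tnorm p v)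

/-- The statement: no Anosov diffeomorphism of `M = S₁ × ⋯ × S_r × T^k`, `r ≥ 1`, has a power
homotopic to a product of pseudo-Anosov homeomorphisms of the surfaces `S_i` and a hyperbolic
automorphism of the torus. -/
def MainStatement : Prop :=
  ∀ (r k : ℕ), 0 < r → ∀ (S : Fin r → PASurface) (A : Matrix (Fin k) (Fin k) ℤ),
    IsHyperbolicMatrix A → ∀ F : X r k ≃ₜ X r k, IsAnosovLift S F →
      ∀ n : ℕ, 0 < n → ¬ Homotopic S (model S A) (F ^ n : X r k ≃ₜ X r k)

end Pool.Agent.ANO
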