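import Pool.Agent.ANO.Assemble
import Pool.Agent.ANO.Core.Main
import Pool.Agent.ANO.Idx.Final
import Pool.Agent.ANO.Dyn.Final
import Pool.Agent.ANO.Geo.Final
import Pool.Agent.ANO.Cone.Bridge

/-!
# ANO: the main theorem

`MP_5e77d9_an`.
-/

set_option autoImplicit false

namespace Pool.Agent.ANO

theorem mainStatement : MainStatement :=
  main_of_statements Core.Local.coreStatement
    (fun S A hA => Cone.geom Geo.props Geo.scale S A hA)
    (Cone.coneStatement_geom Geo.props Geo.scale)
    Idx.index Idx.regular Idx.count Dyn.dynStatement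

end Pool.Agent.ANO
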