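import Pool.Agent.ANO.Final

/-!
# The statement of the theorem in short definitions

`MP_5e77d9_an`.  The same notions as in `Defs.lean`, cut into short definitions in terms of plain
functions, and the theorem in this form.
-/

set_option autoImplicit false

open scoped UpperHalfPlane MatrixGroups
open Set

namespace Pool.Agent.ANO.Stmt

/-- The action of `SL(2, ℝ)` on the upper half plane by Möbius transformations. -/
noncomputable def act (γ : SL(2, ℝ)) (z : ℍ) : ℍ := γ • z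

/-- `Γ` acts on `ℍ` freely (up to elements which act trivially), properly discontinuously and
cocompactly: `Γ \ ℍ` is a closed hyperbolic surface with universal cover `ℍ`. -/
structure IsSurfaceGroup (Γ : Subgroup SL(2, ℝ)) : Prop where
  free : ∀ γ ∈ Γ, ∀ z : ℍ, act γ z = z → ∀ w : ℍ, act γ w = w
  proper : ∀ K : Set ℍ, IsCompact K → {γ : SL(2, ℝ) | γ ∈ Γ ∧ ∃ z ∈ K, act γ z ∈ K}.Finite
  cocompact : ∃ K : Set ℍ, IsCompact K ∧ ∀ z : ℍ, ∃ γ ∈ Γ, act γ z ∈ K

/-- `(D')² dz²` is (the lift to `ℍ` of) a nonzero holomorphic quadratic differential on `Γ \ ℍ`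
all of whose zeros have even order: `D` is holomorphic on the upper half plane, nonconstant and
`D (γ z) = ± D z + c` for `γ ∈ Γ`. -/
structure IsFlat (Γ : Subgroup SL(2, ℝ)) (D : ℂ → ℂ) : Prop where
  holo : DifferentiableOn ℂ D {z : ℂ | 0 < z.im}
  nonconst : ∃ z w : ℍ, D z ≠ D w
  equivar : ∀ γ ∈ Γ, ∃ ε c : ℂ, (ε = 1 ∨ ε = -1) ∧ ∀ z : ℍ, D (act γ z) = ε * D z + c

/-- `f` is a lift to `ℍ` of a homeomorphism of the surface `Γ \ ℍ`. -/
structure IsHomeoLift (Γ : Subgroup SL(2, ℝ)) (f : ℍ → ℍ) : Prop where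
  homeo : IsHomeomorph f
  normalizes : ∀ γ ∈ Γ, ∃ γ' ∈ Γ, ∀ z : ℍ, f (act γ z) = act γ' (f z)
  normalizes' : ∀ γ' ∈ Γ, ∃ γ ∈ Γ, ∀ z : ℍ, f (act γ z) = act γ' (f z)

/-- `f` is (a lift of) a pseudo-Anosov homeomorphism of `Γ \ ℍ` whose invariant foliations are
given by a quadratic differential with zeros of even order only:
`D (f z) = ± (l x + i l⁻¹ y) + c` where `D z = x + i y` and `l > 1`. -/
def IsPseudoAnosov (Γ : Subgroup SL(2, ℝ)) (f : ℍ → ℍ) : Prop :=
  IsHomeoLift Γ f ∧ ∃ (D : ℂ → ℂ) (l : ℝ), IsFlat Γ D ∧ 1 < l ∧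
    ∃ ε c : ℂ, (ε = 1 ∨ ε = -1) ∧ ∀ z : ℍ, D (f z) = ε * stretch l (D z) + c

variable {r k : ℕ}

/-- Deck transformations of `X r k → S₁ × ⋯ × S_r × T^k`, `S_i = Γ_i \ ℍ`. -/
def IsDeck (Γ : Fin r → Subgroup SL(2, ℝ)) (g : X r k → X r k) : Prop :=
  ∃ (γ : Fin r → SL(2, ℝ)) (v : Fin k → ℤ), (∀ i, γ i ∈ Γ i) ∧
    ∀ p, g p = (fun i => act (γ i) (p.1 i), fun j => p.2 j + v j)

/-- The lift `f₁ × ⋯ × f_r × A` of the product of homeomorphisms of the surfaces and of the linear
map `A` of the torus. -/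
noncomputable def model (f : Fin r → ℍ → ℍ) (A : Matrix (Fin k) (Fin k) ℤ) (p : X r k) : X r k :=
  (fun i => f i (p.1 i), (A.map (Int.cast : ℤ → ℝ)).mulVec p.2)

/-- The maps of `M` induced by `G₀` and `G` are homotopic by a homotopy which lifts to one of `G₀`
and `G`: since `X r k` is contractible this means that for every deck transformation `g` one has
`G₀ g = g' G₀`, `G g = g' G` with the same deck transformation `g'`. -/
def Homotopic (Γ : Fin r → Subgroup SL(2, ℝ)) (G₀ G : X r k → X r k) : Prop :=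
  ∀ g, IsDeck Γ g → ∃ g', IsDeck Γ g' ∧ G₀ ∘ g = g' ∘ G₀ ∧ G ∘ g = g' ∘ G

/-- `G` is of class `C¹`. -/
def IsC1 (G : X r k → X r k) : Prop := ContDiffOn ℝ 1 (loc G) (dom r k)

/-- The derivative of `G` at `p` (in the coordinates of `ℂ^r × ℝ^k`). -/
noncomputable def dmap (G : X r k → X r k) (p : X r k) (v : E r k) : E r k :=
  fderiv ℝ (loc G) (toE p) v

/-- `F` is a lift to `X r k` of a `C¹` diffeomorphism of `M = S₁ × ⋯ × S_r × T^k`, and `G` is its
inverse. -/
structure IsDiffeoLift (Γ : Fin r → Subgroup SL(2, ℝ)) (F G : X r k → X r k) : Prop where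
  left_inv : ∀ p, G (F p) = p
  right_inv : ∀ p, F (G p) = p
  smooth : IsC1 F
  smooth_inv : IsC1 G
  normalizes : ∀ g, IsDeck Γ g → ∃ g', IsDeck Γ g' ∧ F ∘ g = g' ∘ F
  normalizes' : ∀ g', IsDeck Γ g' → ∃ g, IsDeck Γ g ∧ F ∘ g = g' ∘ F

/-- `P` is (the lift of) a continuous `DF`-invariant splitting `TM = E^u ⊕ E^s`, given by the
projections `P p` of the tangent space at `p` onto `E^u` with kernel `E^s`. -/
structure IsSplitting (Γ : Fin r → Subgroup SL(2, ℝ)) (F : X r k → X r k)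
    (P : X r k → E r k → E r k) : Prop where
  cont : Continuous fun q : X r k × E r k => P q.1 q.2
  linear : ∀ p, IsLinearMap ℝ (P p)
  proj : ∀ p v, P p (P p v) = P p v
  deck : ∀ g, IsDeck Γ g → ∀ p v, P (g p) (dmap g p v) = dmap g p (P p v)
  inv : ∀ p v, P (F p) (dmap F p v) = dmap F p (P p v)

/-- `F` is a lift to `X r k` of a `C¹` Anosov diffeomorphism of `M = S₁ × ⋯ × S_r × T^k`: there are
a continuous invariant splitting `E^u ⊕ E^s` and constants `C > 0`, `0 < μ < 1` such that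
`‖DFⁿ v‖ ≤ C μⁿ ‖v‖` for `v ∈ E^s` and `‖DF⁻ⁿ v‖ ≤ C μⁿ ‖v‖` for `v ∈ E^u`, `n ≥ 0`, in the deck
invariant norm `tnorm`. -/
def IsAnosovLift (Γ : Fin r → Subgroup SL(2, ℝ)) (F : X r k → X r k) : Prop :=
  ∃ (G : X r k → X r k) (P : X r k → E r k → E r k), IsDiffeoLift Γ F G ∧ IsSplitting Γ F P ∧
    ∃ C μ : ℝ, 0 < C ∧ 0 < μ ∧ μ < 1 ∧ ∀ (n : ℕ) (p : X r k) (v : E r k),
      (P p v = 0 → tnorm (F^[n] p) (dmap F^[n] p v) ≤ C * μ ^ n * tnorm p v) ∧
      (P p v = v → tnorm (G^[n] p) (dmap G^[n] p v) ≤ C * μ ^ n * tnorm p v)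

/-! ### The theorem in this form -/

/-- The structure of `Defs.lean` given by the data above. -/
noncomputable def toPA (Γ : Subgroup SL(2, ℝ)) (hΓ : IsSurfaceGroup Γ) (f : ℍ → ℍ)
    (hf : IsHomeoLift Γ f) (D : ℂ → ℂ) (l : ℝ) (hD : IsFlat Γ D) (hl : 1 < l)
    (h : ∃ ε c : ℂ, (ε = 1 ∨ ε = -1) ∧ ∀ z : ℍ, D (f z) = ε * stretch l (D z) + c) :
    PASurface where
  Γ := Γ
  free := hΓ.free
  proper := hΓ.proper
  cocompact := hΓ.cocompact
  D := D
  holo := hD.holo
  nonconst := hD.nonconst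
  equivar := hD.equivar
  f := hf.homeo.homeomorph f
  normalizes := hf.normalizes
  normalizes' := hf.normalizes'
  l := l
  one_lt := hl
  affine := h

theorem continuous_of_isC1 {G : X r k → X r k} (hG : IsC1 G) : Continuous G := by
  have h1 : ContinuousOn (loc G) (dom r k) := hG.continuousOn
  have h2 : ContinuousOn (fun x => ofE (loc G x)) (dom r k) :=
    Idx.continuousOn_ofE.comp h1 fun x _ => Idx.toE_mem _
  have h3 : Continuous fun p : X r k => ofE (loc G (toE p)) :=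
    h2.comp_continuous Idx.continuous_toE Idx.toE_mem
  refine h3.congr fun p => ?_
  show ofE (toE (G (ofE (toE p)))) = G p
  rw [Idx.ofE_toE, Idx.ofE_toE]

theorem pow_apply (F : X r k ≃ₜ X r k) (n : ℕ) : ⇑(F ^ n) = (⇑F)^[n] := by
  induction n with
  | zero => rfl
  | succ n ih =>
    funext p
    rw [pow_succ', Function.iterate_succ_apply']
    show F ((F ^ n) p) = _
    rw [ih]

theorem pow_symm_apply (F : X r k ≃ₜ X r k) (n : ℕ) : ⇑(F ^ n).symm = (⇑F.symm)^[n] := by
  induction n with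
  | zero => rfl
  | succ n ih =>
    funext p
    rw [Function.iterate_succ_apply, ← ih]
    apply (F ^ (n + 1)).injective
    rw [Homeomorph.apply_symm_apply, pow_succ']
    show p = F ((F ^ n) ((F ^ n).symm (F.symm p)))
    rw [Homeomorph.apply_symm_apply, Homeomorph.apply_symm_apply]

/-- No power of an Anosov diffeomorphism of `S₁ × ⋯ × S_r × T^k`, `r ≥ 1`, is homotopic to a
product of pseudo-Anosov homeomorphisms of the surfaces (with even zeros) and a hyperbolic
automorphism of the torus. -/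
theorem main (r k : ℕ) (hr : 0 < r) (Γ : Fin r → Subgroup SL(2, ℝ))
    (hΓ : ∀ i, IsSurfaceGroup (Γ i)) (f : Fin r → ℍ → ℍ) (hf : ∀ i, IsPseudoAnosov (Γ i) (f i))
    (A : Matrix (Fin k) (Fin k) ℤ) (hA : IsHyperbolicMatrix A) (F : X r k → X r k)
    (hF : IsAnosovLift Γ F) (n : ℕ) (hn : 0 < n) : ¬ Homotopic Γ (model f A) F^[n] := by
  intro hhom
  choose hf D l hD hl haff using hf
  obtain ⟨G, P, hFG, hP, C, μ, hC, hμ0, hμ1, hexp⟩ := hF
  let S : Fin r → PASurface := fun i =>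
    toPA (Γ i) (hΓ i) (f i) (hf i) (D i) (l i) (hD i) (hl i) (haff i)
  let F' : X r k ≃ₜ X r k :=
    { toFun := F
      invFun := G
      left_inv := hFG.left_inv
      right_inv := hFG.right_inv
      continuous_toFun := continuous_of_isC1 hFG.smooth
      continuous_invFun := continuous_of_isC1 hFG.smooth_inv }
  have hcoe : ⇑F' = F := rfl
  have hcoe' : ⇑F'.symm = G := rfl
  let P' : X r k → (E r k →L[ℝ] E r k) := fun p => (hP.linear p).mk'.toContinuousLinearMap
  have hP' : ∀ p v, P' p v = P p v := fun p v => rfl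
  refine mainStatement r k hr S A hA F' ⟨hFG.smooth, hFG.smooth_inv, hFG.normalizes,
    hFG.normalizes', P', ?_, ?_, ?_, ?_, C, μ, hC, hμ0, hμ1, ?_⟩ n hn ?_
  · rw [continuous_clm_apply]
    intro v
    exact hP.cont.comp (Continuous.prodMk_left v)
  · intro p
    apply ContinuousLinearMap.ext
    intro v
    exact hP.proj p v
  · intro g hg p
    apply ContinuousLinearMap.ext
    intro v
    exact hP.deck g hg p v
  · intro p
    apply ContinuousLinearMap.ext
    intro v
    exact hP.inv p v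
  · intro m p v
    have h := hexp m p v
    rw [pow_apply, pow_symm_apply]
    exact h
  · intro g hg
    obtain ⟨g', hg', h1, h2⟩ := hhom g hg
    refine ⟨g', hg', h1, ?_⟩
    rw [pow_apply]
    exact h2

end Pool.Agent.ANO.Stmt
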